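import Mathlib
import Pool.Agent.Helper43.RollMain

set_option autoImplicit false

namespace Pool.Agent.Results.MP_1c25d9_gt.ThinNeck

open Pool.Agent.Helper43.Roll

/-- The rolling statement of the question is false for every curvature bound `c` (and every
constant `lam` which is positive and, for negative `c`, large compared with the square root
of `-c`). -/
theorem result : ∃ K : ℝ, ∀ c lam : ℝ, 0 < lam → K * Real.sqrt (-c) ≤ lam →
    ¬ RollingStatement c lam := by
  refine ⟨3200 * 10000000 ^ 2, ?_⟩
  intro c lam h0 h1
  rcases lt_or_ge c 0 with hc | hc
  · exact no_rolling_neg c lam hc h1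
  · exact no_rolling_nonneg c lam hc h0

end Pool.Agent.Results.MP_1c25d9_gt.ThinNeck
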